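import Pool.Agent.Q260.DS.Stm3
import Pool.Agent.Q210.DS.SY

/-!
# Project DS (helper260), job SP: the class `WP` gives a `Sys` (helper285)
-/

set_option autoImplicit false

namespace Pool.Agent.Q285.DS

open Complex Filter Topology Metric Set
open Pool.Agent.W169.HF H353.E H353.F Q240.GS Q240.OW Pool.Agent.Q260.DS
open scoped ComplexConjugate

/-- growth of the polynomial factor -/
lemma p0_grow (r : ℕ) (y : ℝ) {v : ℝ} (hv : 0 ≤ v) :
    p0 r (y + v) ≤ (1 + 2 * v) ^ (2 * r) * p0 r y := by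
  obtain ⟨s, hs⟩ : ∃ s : ℂ, s = 3 / 2 + y * I := ⟨_, rfl⟩
  obtain ⟨t, ht⟩ : ∃ t : ℂ, t = 3 / 2 + ((y + v : ℝ) : ℂ) * I := ⟨_, rfl⟩
  obtain ⟨h1, h2⟩ := s0_le y
  rw [← hs] at h1 h2
  have h3 : ‖t - s‖ = v := by
    have : t - s = (v : ℂ) * I := by
      rw [ht, hs]
      push_cast
      ring
    rw [this, norm_mul, norm_I, mul_one, norm_real, Real.norm_eq_abs, abs_of_nonneg hv]
  have e1 : ‖t‖ ≤ (1 + 2 * v) * ‖s‖ := by
    have : ‖t‖ ≤ ‖s‖ + v := by
      calc ‖t‖ = ‖s + (t - s)‖ := by congr 1; ring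
        _ ≤ ‖s‖ + ‖t - s‖ := norm_add_le _ _
        _ = _ := by rw [h3]
    nlinarith
  have e2 : ‖t - 1‖ ≤ (1 + 2 * v) * ‖s - 1‖ := by
    have : ‖t - 1‖ ≤ ‖s - 1‖ + v := by
      calc ‖t - 1‖ = ‖(s - 1) + (t - s)‖ := by congr 1; ring
        _ ≤ ‖s - 1‖ + ‖t - s‖ := norm_add_le _ _
        _ = _ := by rw [h3]
    nlinarith
  unfold p0 pp
  rw [← hs, ← ht, norm_pow, norm_pow, norm_mul, norm_mul, pow_mul, ← mul_pow]
  refine pow_le_pow_left₀ (by positivity) ?_ r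
  calc ‖t‖ * ‖t - 1‖ ≤ ((1 + 2 * v) * ‖s‖) * ((1 + 2 * v) * ‖s - 1‖) := by gcongr
    _ = (1 + 2 * v) ^ 2 * (‖s‖ * ‖s - 1‖) := by ring

/-- polynomials against exponentials -/
lemma poly_exp (n : ℕ) {A v : ℝ} (hA : 1 ≤ A) (hv : 0 ≤ v) :
    (1 + 2 * v) ^ n * (A * Real.exp (-v / A)) ≤
      ((4 * A * (n + 1)) ^ n * (2 * A)) * Real.exp (-v / ((4 * A * (n + 1)) ^ n * (2 * A))) := by
  have hn : (0 : ℝ) ≤ n := Nat.cast_nonneg n
  obtain ⟨D, hD⟩ : ∃ D : ℝ, D = 4 * A * (n + 1) := ⟨_, rfl⟩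
  have hD1 : 1 ≤ D := by rw [hD]; nlinarith
  rw [← hD]
  have hDn : 1 ≤ D ^ n := one_le_pow₀ hD1
  have hA0 : 0 < A := by linarith
  have h1 : 1 + 2 * v ≤ D * Real.exp (v / (2 * A * (n + 1))) := by
    have h2 := Real.add_one_le_exp (v / (2 * A * (n + 1)))
    have h3 : D * (v / (2 * A * (n + 1)) + 1) = 2 * v + D := by
      rw [hD]
      field_simp
      ring
    have h4 := mul_le_mul_of_nonneg_left h2 (by linarith : 0 ≤ D)
    linarith
  have h2 : (1 + 2 * v) ^ n ≤ D ^ n * Real.exp (v / (2 * A)) := by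
    refine (pow_le_pow_left₀ (by linarith) h1 n).trans ?_
    rw [mul_pow, ← Real.exp_nat_mul]
    refine mul_le_mul_of_nonneg_left (Real.exp_le_exp.2 ?_) (by positivity)
    rw [← mul_div_assoc, div_le_div_iff₀ (by positivity) (by positivity)]
    nlinarith [mul_nonneg hv hA0.le]
  have h3 : Real.exp (v / (2 * A)) * Real.exp (-v / A) = Real.exp (-v / (2 * A)) := by
    rw [← Real.exp_add]
    congr 1
    field_simp
    ring
  have h4 : Real.exp (-v / (2 * A)) ≤ Real.exp (-v / (D ^ n * (2 * A))) := by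
    refine Real.exp_le_exp.2 ?_
    rw [neg_div, neg_div, neg_le_neg_iff]
    refine div_le_div_of_nonneg_left hv (by linarith) ?_
    nlinarith
  calc (1 + 2 * v) ^ n * (A * Real.exp (-v / A))
      ≤ (D ^ n * Real.exp (v / (2 * A))) * (A * Real.exp (-v / A)) := by gcongr
    _ = (D ^ n * A) * (Real.exp (v / (2 * A)) * Real.exp (-v / A)) := by ring
    _ = (D ^ n * A) * Real.exp (-v / (2 * A)) := by rw [h3]
    _ ≤ (D ^ n * (2 * A)) * Real.exp (-v / (D ^ n * (2 * A))) := by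
        refine mul_le_mul ?_ h4 (Real.exp_pos _).le (by positivity)
        nlinarith

theorem t_SP (h : S_HD) : S_SP := by
  intro m r M Y B hm hM hY hB
  have hm' : (1 : ℝ) ≤ m := by exact_mod_cast hm
  have hr' : (0 : ℝ) ≤ r := Nat.cast_nonneg r
  obtain ⟨A, hA, HD⟩ := h m M Y hm hM hY
  have hlogB : 0 ≤ Real.log B := Real.log_nonneg hB
  obtain ⟨D, hD⟩ : ∃ D : ℝ, D = 4 * A * ((2 * r : ℕ) + 1) := ⟨_, rfl⟩
  have hD1 : 1 ≤ D := by
    rw [hD]
    have : (0 : ℝ) ≤ (2 * r : ℕ) := Nat.cast_nonneg _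
    nlinarith
  have hDn : 1 ≤ D ^ (2 * r) := one_le_pow₀ hD1
  refine ⟨11 / 2 * (Real.log B + 24 * m + 8 * r), D ^ (2 * r) * (2 * A), by linarith, by nlinarith, ?_⟩
  intro N μ X w hμM
  have hff : ∀ (y : ℝ) (u : ℂ), X (1 / 2 + (u + I * y)) = X (1 / 2 + (y : ℂ) * I + u) := fun y u => by
    congr 1
    ring
  have hud := fun y : ℝ => ud_ofP hm hB w y
  refine ⟨?_, fun y => (hud y).hG, fun y u => ?_, fun y u hu => ?_, fun y v => ?_, fun y v hy hv => ?_⟩
  · exact w.slow.1.comp (differentiable_id.const_add (1 / 2 : ℂ))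
  · simp only [hff]
    exact (hud y).up u
  · simp only [hff]
    exact (hud y).lo u hu
  · refine (Pool.Agent.Q210.DS.el_shift hm w.one_le w.re_le y v).trans ?_
    refine mul_le_mul_of_nonneg_right (by linarith) (Real.log_nonneg (by linarith [abs_nonneg v]))
  · have h1 := HD N μ w.one_le w.re_le hμM y v hy hv
    have h2 := p0_grow r y hv
    have h3 := poly_exp (2 * r) hA hv
    rw [← hD] at h3
    have hg0 : 0 < gg N μ y := gpos hm w.one_le w.re_le y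
    have hp0 := p0_pos r y
    unfold gp
    calc p0 r (y + v) * gg N μ (y + v)
        ≤ ((1 + 2 * v) ^ (2 * r) * p0 r y) * (A * Real.exp (-v / A) * gg N μ y) :=
          mul_le_mul h2 h1 (gpos hm w.one_le w.re_le (y + v)).le (by positivity)
      _ = ((1 + 2 * v) ^ (2 * r) * (A * Real.exp (-v / A))) * (p0 r y * gg N μ y) := by ring
      _ ≤ _ := mul_le_mul_of_nonneg_right h3 (by positivity)

end Pool.Agent.Q285.DS
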